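import Pool.Agent.V5helper66.LD.Main
import Pool.Agent.V5helper63.LD.ANA

set_option autoImplicit false

/-!
# Average-case lower bound for the discrepancy of lattice point sets (MP_6b2836_nt, Q1)

For every dimension `d ≥ 2` and every `χ < 1` there is `C > 0` such that for EVERY `N` (prime or
not) at least `χ N^d` of the tuples `a ∈ {0, …, N-1}^d` satisfy
`D_N(a) ≥ C (log N)^{d-1} log log N / N`.  This is the full (affirmative) answer to Q1.

Proof.  Let `Λ = {h ∈ ℤ^d : h·a ≡ 0 mod N}` be the dual lattice and `r(h) = ∏ |h_i|`.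

*Riesz products.*  `F(z) = (1/N) ∑_n ∏_i (1 - {x_{n,i} + z_i}) - 2^{-d}` satisfies `|F| ≤ 2^d D_N(a)`
and only frequencies in `Λ` occur; a frequency without zero coordinate has coefficient of modulus
`(2π)^{-d} / r(h)`.  Integrating against `∏_{h ∈ H} (1 + Re (c_h e(h·z)))` for a finite `H ⊆ Λ` whose
coordinates are `R`-separated in every coordinate gives `D_N(a) ≥ c ∑_{h ∈ H} 1 / r(h)` as soon as
the error of the higher products is small; it suffices that `N / r(h)` lies between
`(log N)^{d-1-1/4}` and `(log N)^{d-1-1/8}` and `R = (log N)^{1/2}`.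

*Reduction.*  Multiplying by a unit we may assume that `a_1 = g = gcd (a_1, N)`, which is small for
most `a_1`; then `h_1` is determined modulo `M = N / g` by the other coordinates `k`, which have to
lie in a lattice `L` of index at most `g`.

*`d = 2`.*  The sum over `H` is a sum of large partial quotients of `b / M`; its lower tail is
bounded by an exponential moment and a recursion along the continued fraction cylinders.
Separation is automatic.

*`d ≥ 3`.*  One uses the vectors `k` that are primitive in `L`, in a suitable box.  `b ∈ (ℤ/M)^{d-1}`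
is obtained by rounding from `z ∈ (ℤ/Q)^{d-1}` with a large prime `Q`; there the residues of `k·z`
are exactly pairwise independent, so Chebyshev's inequality gives
`∑ N / r(h) ≥ c (log N)^{d-1} log log N` with probability close to one, and the expected number of
pairs that are not separated tends to zero.
-/

namespace Pool.Agent.Results.MP_6b2836_nt.AverageDiscrepancyLowerBound

/-- The `i`-th coordinate `{n a_i / N}` of the `n`-th point of the lattice point set `P_N(a)`. -/
noncomputable def latticePoint {d : ℕ} (N : ℕ) (a : Fin d → ℕ) (n : ℕ) (i : Fin d) : ℝ :=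
  Int.fract ((n : ℝ) * (a i : ℝ) / (N : ℝ))

open Classical in
/-- `| #{0 ≤ n < N : x_n ∈ ∏ [u_i, v_i)} / N - ∏ (v_i - u_i) |`, the local discrepancy of
`P_N(a)` for the box `∏ [u_i, v_i)`. -/
noncomputable def boxDiscrepancy {d : ℕ} (N : ℕ) (a : Fin d → ℕ) (u v : Fin d → ℝ) : ℝ :=
  |(((Finset.range N).filter
      (fun n => ∀ i, u i ≤ latticePoint N a n i ∧ latticePoint N a n i < v i)).card : ℝ) / N
    - ∏ i, (v i - u i)|

/-- The (extreme) discrepancy `D_N(a)`: the supremum of the local discrepancies over all boxes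
`∏ [u_i, v_i)` with `0 ≤ u_i ≤ v_i ≤ 1`. -/
noncomputable def discrepancy {d : ℕ} (N : ℕ) (a : Fin d → ℕ) : ℝ :=
  sSup {x : ℝ | ∃ u v : Fin d → ℝ,
    (∀ i, 0 ≤ u i ∧ u i ≤ v i ∧ v i ≤ 1) ∧ x = boxDiscrepancy N a u v}

open Classical in
/-- **Q1 of MP_6b2836_nt, affirmative answer.** -/
theorem result (d : ℕ) (hd : 2 ≤ d) (χ : ℝ) (hχ : χ < 1) :
    ∃ C : ℝ, 0 < C ∧ ∀ N : ℕ, 1 ≤ N →
      χ * (N : ℝ) ^ d ≤ (((Finset.univ : Finset (Fin d → Fin N)).filter (fun a =>
        C * ((Real.log N) ^ (d - 1) * Real.log (Real.log N)) / N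
          ≤ discrepancy N (fun i => ((a i : Fin N) : ℕ)))).card : ℝ) :=
  V5LD.main_of_ANA V5LD.Ana.t_ANA d hd χ hχ

end Pool.Agent.Results.MP_6b2836_nt.AverageDiscrepancyLowerBound
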